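import Pool.Agent.R537.VC.Defs

/-!
# Assembly
-/

set_option autoImplicit false

namespace Pool.Agent.NPC.R537VC

open Pool.Agent.NPC Pool.Agent.NPC.ER

theorem asm (hHC : S_HC) (hHP : S_HP) (hMC : S_MC) (hMP : S_MP) (hRC : S_RC) (hRP : S_RP)
    (hCL : S_CL) :
    (InEBE (lang VCdim) ∧ EBEHard (lang VCdim)) ∧
    ((InEAE (lang VCdim) ∧ EAEHard (lang VCdim)) ↔ ∀ L, InEAE L ↔ InEBE L) := by
  obtain ⟨h1, h2, h3, h4⟩ := hCL
  have hm : InEBE (lang VCdim) := h1 msen hMP hMC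
  have hh : EBEHard (lang VCdim) := h2 hinst hHP hHC
  have hs : ∀ L, InEBE L → InEAE L := h3 rsen hRP hRC
  refine ⟨⟨hm, hh⟩, ⟨fun h L => ⟨fun hL => h4 L _ hm (h.2 L hL), hs L⟩, fun h => ⟨hs _ hm, ?_⟩⟩⟩
  intro L hL
  exact hh L ((h L).1 hL)

end Pool.Agent.NPC.R537VC
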