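import Pool.Agent.R537.VC.Defs
import Pool.Agent.ER.Hard
import Pool.Agent.ER.Dec
import Pool.Agent.ER.Rat

/-!
# Closure properties of the classes
-/

set_option autoImplicit false

namespace Pool.Agent.NPC.R537VC

open Pool.Agent.NPC Pool.Agent.NPC.ER

/-- A false sentence. -/
def Sen.ff : Sen := ([], [], Fm.lt Tm.zero Tm.zero)

theorem not_EBE_ff : ¬ EBE Sen.ff := by
  rintro ⟨x, h⟩
  obtain ⟨z, hz⟩ := h fun _ => true
  exact lt_irrefl _ hz

theorem polyTime_comp_poly {β γ : Type} [TEnc β] [TEnc γ] {g : List Bool → β} {f : β → γ}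
    (hg : PolyTime (fun w => bits (g w))) (hf : Poly f) : PolyTime (fun w => bits (f (g w))) := by
  have h1 : PC (id : List Bool → List Bool) (bits : β → List Bool) g :=
    H642R2.TMSim.polyTime_toPC hg
  have h3 : PC (id : List Bool → List Bool) (bits : γ → List Bool) (fun x => f (g x)) :=
    PC.comp (g := f) (eb := (bits : β → List Bool)) hf h1
  have h4 : PC (id : List Bool → List Bool) (id : List Bool → List Bool)
    (fun x => bits (f (g x))) := h3
  exact PC.toPolyTime h4

theorem b_CL : S_CL := by
  refine ⟨?_, ?_, ?_, ?_⟩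
  · intro p hp hP
    refine ⟨fun w => match unbits VInst w with | none => Sen.ff | some a => p a, ?_, fun w => ?_⟩
    · refine polyTime_bits (g := fun w => match unbits VInst w with
        | none => Sen.ff | some a => p a) ?_
      have h := Poly.optCases (g := fun _ => Sen.ff) (h := fun _ a => p a)
        (poly_unbits (α := VInst)) (Poly.const _) (hp.comp (Poly.snd Poly.id))
      refine h.congr fun w => ?_
      cases unbits VInst w <;> rfl
    · rw [mem_lang_iff]
      cases hx : unbits VInst w with
      | none => simp only [hx]; simp [not_EBE_ff]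
      | some a => simp only [hx]; simp [hP a]
  · intro f hf h L' hL'
    obtain ⟨g, hg, hL⟩ := hL'
    refine ⟨fun x => bits (f (g x)), polyTime_comp_poly hg hf, fun x => ?_⟩
    rw [hL, h]
    constructor
    · intro hP
      exact ⟨_, rfl, hP⟩
    · rintro ⟨a, ha, hP⟩
      rwa [bits_injective ha] at hP
  · intro f hf h L hL
    obtain ⟨g, hg, hL⟩ := hL
    exact ⟨fun w => f (g w), polyTime_comp_poly hg hf, fun w => (hL w).trans (h _)⟩
  · intro L L' hL' hr
    obtain ⟨f, hf, h1⟩ := hL'
    obtain ⟨g, hg, h2⟩ := hr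
    have h3 := H642R2.TMSim.polyTime_comp hf hg
    exact ⟨fun w => f (g w), h3, fun w => (h2 w).trans (h1 _)⟩

end Pool.Agent.NPC.R537VC
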