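import Pool.Agent.ER.Defs
import Pool.Agent.ER.Build

/-!
# The VC dimension of semialgebraic families and two levels of the real polynomial hierarchy
-/

set_option autoImplicit false

namespace Pool.Agent.NPC.R537VC

open Pool.Agent.NPC Pool.Agent.NPC.ER

/-- A prenex sentence with three blocks of quantifiers: the list `E` of the variables of the outer
existential block, the list `U` of the variables of the universal block (if they are not in `E`),
and a quantifier-free formula; all the other variables belong to the inner existential block. -/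
abbrev Sen : Type := List ℕ × List ℕ × Fm

/-- The assignment with the values `x` on the outer block, `y` on the universal block and `z` on the
inner block. -/
def mix3 (E U : List ℕ) (x y z : ℕ → ℝ) (i : ℕ) : ℝ :=
  if i ∈ E then x i else if i ∈ U then y i else z i

/-- The sentence `∃ X ∀ Y ∃ Z φ` is true over the real numbers. -/
def EAE (p : Sen) : Prop := ∃ x : ℕ → ℝ, ∀ y : ℕ → ℝ, ∃ z : ℕ → ℝ,
  p.2.2.Holds (mix3 p.1 p.2.1 x y z)

/-- The real number `0` or `1`. -/
def bre (b : Bool) : ℝ := if b then 1 else 0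

/-- The sentence `∃ X ∀ Y ∃ Z φ`, with `X` and `Z` ranging over the real numbers and `Y` ranging over
`{0, 1}`, is true. -/
def EBE (p : Sen) : Prop := ∃ x : ℕ → ℝ, ∀ b : ℕ → Bool, ∃ z : ℕ → ℝ,
  p.2.2.Holds (mix3 p.1 p.2.1 x (fun i => bre (b i)) z)

/-- The class `∃∀∃ℝ`. -/
def InEAE (L : Set (List Bool)) : Prop :=
  ∃ f : List Bool → Sen, PolyTime (fun w => bits (f w)) ∧ ∀ w, w ∈ L ↔ EAE (f w)

/-- The class `∃ℝ ∀{0,1} ∃ℝ`: the universal quantifiers range over `{0, 1}`. -/
def InEBE (L : Set (List Bool)) : Prop :=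
  ∃ f : List Bool → Sen, PolyTime (fun w => bits (f w)) ∧ ∀ w, w ∈ L ↔ EBE (f w)

/-- `∃∀∃ℝ`-hardness under polynomial-time many-one reductions. -/
def EAEHard (L : Set (List Bool)) : Prop := ∀ L', InEAE L' → Reduces L' L

/-- Hardness for the class `∃ℝ ∀{0,1} ∃ℝ` under polynomial-time many-one reductions. -/
def EBEHard (L : Set (List Bool)) : Prop := ∀ L', InEBE L' → Reduces L' L

/-- An instance `(φ, n, k)` of the problem on the VC dimension; `n` and `k` are given in unary. The
variables `0, …, n - 1` are the coordinates of the points, the others are the parameters. -/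
abbrev VInst : Type := Fm × List Unit × List Unit

/-- The assignment of the point `x` and of the parameters `y`. -/
def vasg (n : ℕ) (x : Fin n → ℝ) (y : ℕ → ℝ) (i : ℕ) : ℝ := if h : i < n then x ⟨i, h⟩ else y i

/-- The family of semialgebraic subsets of `ℝⁿ` defined by `φ`. -/
def family (φ : Fm) (n : ℕ) : Set (Set (Fin n → ℝ)) :=
  {S | ∃ y : ℕ → ℝ, S = {x | φ.Holds (vasg n x y)}}

/-- The family `F` shatters the set `P`. -/
def Shatters {n : ℕ} (F : Set (Set (Fin n → ℝ))) (P : Set (Fin n → ℝ)) : Prop :=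
  ∀ P' ⊆ P, ∃ S ∈ F, S ∩ P = P'

/-- The problem VC-SEMIALG: `k ≥ 1`, and some set of `k` points of `ℝⁿ` is shattered by the family
defined by `φ`. -/
def VCdim (I : VInst) : Prop := 1 ≤ I.2.2.length ∧
  ∃ P : Finset (Fin I.2.1.length → ℝ), P.card = I.2.2.length ∧
    Shatters (family I.1 I.2.1.length) (P : Set (Fin I.2.1.length → ℝ))

/-! ### Formulas -/

/-- Conjunction of a list of formulas. -/
def andL : List Fm → Fm
  | [] => Fm.le Tm.zero Tm.zero
  | φ :: l => Fm.and φ (andL l)

/-- Disjunction of a list of formulas. -/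
def orL : List Fm → Fm
  | [] => Fm.lt Tm.zero Tm.zero
  | φ :: l => Fm.or φ (orL l)

/-- Substitution of variables by variables. -/
def sbT (g : ℕ → ℕ) : Tm → Tm
  | .var i => .var (g i)
  | .zero => .zero
  | .one => .one
  | .add s t => .add (sbT g s) (sbT g t)
  | .neg t => .neg (sbT g t)
  | .mul s t => .mul (sbT g s) (sbT g t)

/-- Substitution of variables by variables. -/
def sbF (g : ℕ → ℕ) : Fm → Fm
  | .eq s t => .eq (sbT g s) (sbT g t)
  | .lt s t => .lt (sbT g s) (sbT g t)
  | .le s t => .le (sbT g s) (sbT g t)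
  | .not φ => .not (sbF g φ)
  | .and φ ψ => .and (sbF g φ) (sbF g ψ)
  | .or φ ψ => .or (sbF g φ) (sbF g ψ)

/-- The formula `x_i = 1`. -/
def is1 (i : ℕ) : Fm := Fm.eq (Tm.var i) Tm.one

/-- The formula `x_i = 0`. -/
def is0 (i : ℕ) : Fm := Fm.eq (Tm.var i) Tm.zero

/-! ### Hardness -/

/-- The names of the variables in the reduction: the outer variables become the coordinates. -/
def hvar (E U : List ℕ) (i : ℕ) : ℕ :=
  if i ∈ E then E.idxOf i
  else if i ∈ U then E.length + 1 + (3 * U.idxOf i + 1)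
  else E.length + 1 + (3 * i + 2)

/-- The name of the parameter `b'_j`. -/
def hb (E : List ℕ) (j : ℕ) : ℕ := E.length + 1 + (3 * j + 1)

/-- The formula of the reduction. -/
def hfm (p : Sen) : Fm :=
  Fm.and (andL ((List.range (p.2.1.length + 1)).map fun j =>
      Fm.or (is0 (hb p.1 j)) (is1 (hb p.1 j))))
    (Fm.and (andL ((List.range p.1.length).map fun e =>
      Fm.eq (Tm.var e) (Tm.var (p.1.length + 1 + 3 * e))))
    (Fm.and (orL ((List.range (p.2.1.length + 1)).map fun j =>
      Fm.and (Fm.eq (Tm.var p.1.length) (natTm j)) (is1 (hb p.1 j))))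
    (Fm.or (is0 (hb p.1 p.2.1.length)) (sbF (hvar p.1 p.2.1) p.2.2))))

/-- The reduction. -/
def hinst (p : Sen) : VInst :=
  (hfm p, List.replicate (p.1.length + 1) (), List.replicate (p.2.1.length + 1) ())

/-! ### Membership -/

/-- The names of the variables for the point number `j`. -/
def mvar (n j i : ℕ) : ℕ := if i < n then 3 * (j * n + i) else 3 * i + 2

/-- The sentence of an instance. -/
def msen (I : VInst) : Sen :=
  ((List.range (I.2.2.length * I.2.1.length)).map (fun t => 3 * t),
    (List.range I.2.2.length).map (fun j => 3 * j + 1),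
    Fm.and (if I.2.2 = [] then Fm.lt Tm.zero Tm.zero else Fm.le Tm.zero Tm.zero)
      (andL ((List.range I.2.2.length).map fun j =>
        Fm.or (Fm.and (is1 (3 * j + 1)) (sbF (mvar I.2.1.length j) I.1))
          (Fm.and (Fm.not (is1 (3 * j + 1))) (Fm.not (sbF (mvar I.2.1.length j) I.1))))))

/-! ### Boolean quantifiers by real quantifiers -/

/-- The relativized sentence. -/
def rsen (p : Sen) : Sen :=
  (p.1, p.2.1, Fm.or (orL ((p.2.1.filter fun u => decide (u ∉ p.1)).map fun u =>
    Fm.not (Fm.or (is0 u) (is1 u)))) p.2.2)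

/-! ### Statements of the pieces -/

def S_HC : Prop := ∀ p : Sen, EBE p ↔ VCdim (hinst p)
def S_HP : Prop := Poly hinst
def S_MC : Prop := ∀ I : VInst, VCdim I ↔ EBE (msen I)
def S_MP : Prop := Poly msen
def S_RC : Prop := ∀ p : Sen, EBE p ↔ EAE (rsen p)
def S_RP : Prop := Poly rsen
def S_CL : Prop := (∀ p : VInst → Sen, Poly p → (∀ I, VCdim I ↔ EBE (p I)) → InEBE (lang VCdim)) ∧
  (∀ f : Sen → VInst, Poly f → (∀ p, EBE p ↔ VCdim (f p)) → EBEHard (lang VCdim)) ∧
  (∀ f : Sen → Sen, Poly f → (∀ p, EBE p ↔ EAE (f p)) → ∀ L, InEBE L → InEAE L) ∧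
  (∀ L L', InEBE L' → Reduces L L' → InEBE L)

end Pool.Agent.NPC.R537VC
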