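import Pool.Agent.R537.VC.Defs
import Pool.Agent.R537.HD.Mem

/-!
# Boolean quantifiers by real quantifiers
-/

set_option autoImplicit false

namespace Pool.Agent.NPC.R537VC

open Pool.Agent.NPC Pool.Agent.NPC.ER

theorem holds_orL (v : ℕ → ℝ) : ∀ l : List Fm, (orL l).Holds v ↔ ∃ φ ∈ l, φ.Holds v
  | [] => by simp [orL, Fm.Holds]
  | φ :: l => by simp [orL, Fm.Holds, holds_orL v l]

theorem b_RC : S_RC := by
  classical
  rintro ⟨E, U, φ⟩
  simp only [EBE, EAE, rsen, Fm.Holds, holds_orL, List.mem_map, List.mem_filter,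
    decide_eq_true_eq]
  constructor
  · rintro ⟨x, hx⟩
    refine ⟨x, fun y => ?_⟩
    by_cases hy : ∃ u, (u ∈ U ∧ u ∉ E) ∧ ¬ (y u = 0 ∨ y u = 1)
    · obtain ⟨u, ⟨hu1, hu2⟩, hu3⟩ := hy
      refine ⟨0, Or.inl ⟨_, ⟨u, ⟨hu1, hu2⟩, rfl⟩, ?_⟩⟩
      simp only [Fm.Holds, is0, is1, Tm.eval, mix3, if_neg hu2, if_pos hu1]
      exact hu3
    · push Not at hy
      obtain ⟨z, hz⟩ := hx fun u => decide (y u = 1)
      refine ⟨z, Or.inr ?_⟩
      have : mix3 E U x (fun i => bre (decide (y i = 1))) z = mix3 E U x y z := by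
        funext i
        unfold mix3
        by_cases h1 : i ∈ E
        · simp [h1]
        · by_cases h2 : i ∈ U
          · simp only [h1, h2, if_true, if_false, bre]
            rcases hy i ⟨h2, h1⟩ with h | h
            · simp [h]
            · simp [h]
          · simp [h1, h2]
      rwa [this] at hz
  · rintro ⟨x, hx⟩
    refine ⟨x, fun b => ?_⟩
    obtain ⟨z, hz⟩ := hx fun i => bre (b i)
    refine ⟨z, ?_⟩
    rcases hz with ⟨ψ, ⟨u, ⟨hu1, hu2⟩, rfl⟩, h⟩ | h
    · exfalso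
      simp only [Fm.Holds, is0, is1, Tm.eval, mix3, if_neg hu2, if_pos hu1] at h
      apply h
      cases b u <;> simp [bre]
    · exact h

end Pool.Agent.NPC.R537VC
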