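import Pool.Agent.R537.VC.MC
import Pool.Agent.R537.VC.RC

/-!
# Correctness of the hardness reduction
-/

set_option autoImplicit false

namespace Pool.Agent.NPC.R537VC

open Pool.Agent.NPC Pool.Agent.NPC.ER

/-- the assignment of the inner formula -/
def asn (E U : List ℕ) (x y : ℕ → ℝ) (i : ℕ) : ℝ :=
  if i ∈ E then x (E.idxOf i) else if i ∈ U then y (E.length + 1 + (3 * U.idxOf i + 1))
  else y (E.length + 1 + (3 * i + 2))

/-- the point as a function on the natural numbers -/
def pex {n : ℕ} (x : Fin n → ℝ) (i : ℕ) : ℝ := if h : i < n then x ⟨i, h⟩ else 0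

theorem hfm_holds (E U : List ℕ) (φ : Fm) (n : ℕ) (hn : n = E.length + 1) (x : Fin n → ℝ)
    (y : ℕ → ℝ) : (hfm (E, U, φ)).Holds (vasg n x y) ↔
    (∀ j < U.length + 1, y (hb E j) = 0 ∨ y (hb E j) = 1) ∧
    (∀ e < E.length, pex x e = y (E.length + 1 + 3 * e)) ∧
    (∃ j < U.length + 1, pex x E.length = j ∧ y (hb E j) = 1) ∧
    (y (hb E U.length) = 0 ∨ φ.Holds (asn E U (pex x) y)) := by
  have h1 : ∀ i, i < n → vasg n x y i = pex x i := by
    intro i hi
    simp [vasg, pex, hi]
  have h2 : ∀ i, n ≤ i → vasg n x y i = y i := by
    intro i hi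
    unfold vasg
    rw [dif_neg (by omega)]
  have h3 : ∀ j, vasg n x y (hb E j) = y (hb E j) := fun j => h2 _ (by unfold hb; omega)
  have h4 : (fun i => vasg n x y (hvar E U i)) = asn E U (pex x) y := by
    funext i
    unfold hvar asn
    by_cases hE : i ∈ E
    · rw [if_pos hE, if_pos hE]
      exact h1 _ (by have := List.idxOf_lt_length_of_mem hE; omega)
    · rw [if_neg hE, if_neg hE]
      by_cases hU : i ∈ U
      · rw [if_pos hU, if_pos hU]
        exact h2 _ (by omega)
      · rw [if_neg hU, if_neg hU]
        exact h2 _ (by omega)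
  unfold hfm
  simp only [Fm.Holds, holds_andL, holds_orL, holds_sbF, List.mem_map, List.mem_range]
  refine and_congr ?_ (and_congr ?_ (and_congr ?_ ?_))
  · constructor
    · intro h j hj
      have := h _ ⟨j, hj, rfl⟩
      simpa only [Fm.Holds, is0, is1, Tm.eval, h3] using this
    · rintro h _ ⟨j, hj, rfl⟩
      simpa only [Fm.Holds, is0, is1, Tm.eval, h3] using h j hj
  · constructor
    · intro h e he
      have := h _ ⟨e, he, rfl⟩
      simp only [Fm.Holds, Tm.eval] at this
      rwa [h1 e (by omega), h2 _ (by omega)] at this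
    · rintro h _ ⟨e, he, rfl⟩
      simp only [Fm.Holds, Tm.eval]
      rw [h1 e (by omega), h2 _ (by omega)]
      exact h e he
  · constructor
    · rintro ⟨_, ⟨j, hj, rfl⟩, h⟩
      simp only [Fm.Holds, is1, Tm.eval, h3, eval_natTm] at h
      rw [h1 _ (by omega)] at h
      exact ⟨j, hj, h⟩
    · rintro ⟨j, hj, h⟩
      refine ⟨_, ⟨j, hj, rfl⟩, ?_⟩
      simp only [Fm.Holds, is1, Tm.eval, h3, eval_natTm]
      rw [h1 _ (by omega)]
      exact h
  · rw [h4]
    simp only [is0, Fm.Holds, Tm.eval, h3]

theorem hc_aux (E U : List ℕ) (φ : Fm) (n k : ℕ) (hn : n = E.length + 1) (hk : k = U.length + 1) :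
    EBE (E, U, φ) ↔ (1 ≤ k ∧ ∃ P : Finset (Fin n → ℝ), P.card = k ∧
      Shatters (family (hfm (E, U, φ)) n) (P : Set (Fin n → ℝ))) := by
  classical
  constructor
  · rintro ⟨x0, hx⟩
    refine ⟨by omega, ?_⟩
    let pt : ℕ → Fin n → ℝ := fun j i => if (i : ℕ) < E.length then x0 (E.getD i 0) else j
    have hpt1 : ∀ j e, e < E.length → pex (pt j) e = x0 (E.getD e 0) := by
      intro j e he
      have h : e < n := by omega
      simp [pex, h, pt, he]
    have hpt2 : ∀ j, pex (pt j) E.length = j := by
      intro j
      have h : E.length < n := by omega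
      simp [pex, h, pt]
    have hinj : Function.Injective fun j : Fin k => pt j := by
      intro j j' h
      have h1 : pt j = pt j' := h
      have h2 := hpt2 j
      rw [h1, hpt2 j'] at h2
      exact Fin.ext (by exact_mod_cast h2.symm)
    refine ⟨Finset.univ.image fun j : Fin k => pt j, ?_, ?_⟩
    · rw [Finset.card_image_of_injective _ hinj]
      simp
    · intro P' hP'
      let β : ℕ → Bool := fun j => decide (pt j ∈ P')
      obtain ⟨z, hz⟩ := hx fun u => β (U.idxOf u)
      let y : ℕ → ℝ := fun t => if (t - (E.length + 1)) % 3 = 0 then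
        x0 (E.getD ((t - (E.length + 1)) / 3) 0)
        else if (t - (E.length + 1)) % 3 = 1 then bre (β ((t - (E.length + 1)) / 3))
        else z ((t - (E.length + 1)) / 3)
      have y0 : ∀ e, y (E.length + 1 + 3 * e) = x0 (E.getD e 0) := by
        intro e
        have e1 : E.length + 1 + 3 * e - (E.length + 1) = 3 * e := by omega
        simp only [y, e1]
        rw [if_pos (by omega)]
        congr 2
        omega
      have y1 : ∀ j, y (E.length + 1 + (3 * j + 1)) = bre (β j) := by
        intro j
        have e1 : E.length + 1 + (3 * j + 1) - (E.length + 1) = 3 * j + 1 := by omega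
        have e2 : (3 * j + 1) / 3 = j := by omega
        simp only [y, e1, e2]
        rw [if_neg (by omega), if_pos (by omega)]
      have y2 : ∀ i, y (E.length + 1 + (3 * i + 2)) = z i := by
        intro i
        have e1 : E.length + 1 + (3 * i + 2) - (E.length + 1) = 3 * i + 2 := by omega
        have e2 : (3 * i + 2) / 3 = i := by omega
        simp only [y, e1, e2]
        rw [if_neg (by omega), if_neg (by omega)]
      have hmem : ∀ j < k, ((hfm (E, U, φ)).Holds (vasg n (pt j) y) ↔ β j = true) := by
        intro j hj
        rw [hfm_holds E U φ n hn]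
        constructor
        · rintro ⟨-, -, ⟨j', hj', h1, h2⟩, -⟩
          rw [hpt2] at h1
          have h3 : j = j' := by exact_mod_cast h1
          subst h3
          unfold hb at h2
          rwa [y1, bre_eq_one] at h2
        · intro hβ
          refine ⟨fun j' _ => ?_, fun e he => ?_, ⟨j, by omega, hpt2 j, ?_⟩, Or.inr ?_⟩
          · unfold hb
            rw [y1]
            cases β j' <;> simp [bre]
          · rw [hpt1 j e he, y0]
          · unfold hb
            rw [y1, bre_eq_one]
            exact hβ
          · have : asn E U (pex (pt j)) y = mix3 E U x0 (fun i => bre (β (U.idxOf i))) z := by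
              funext i
              unfold asn mix3
              by_cases hE : i ∈ E
              · rw [if_pos hE, if_pos hE, hpt1 _ _ (List.idxOf_lt_length_of_mem hE)]
                congr 1
                rw [List.getD_eq_getElem _ _ (List.idxOf_lt_length_of_mem hE)]
                exact List.getElem_idxOf _
              · rw [if_neg hE, if_neg hE]
                by_cases hU : i ∈ U
                · rw [if_pos hU, if_pos hU, y1]
                · rw [if_neg hU, if_neg hU, y2]
            rw [this]
            exact hz
      refine ⟨_, ⟨y, rfl⟩, ?_⟩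
      ext q
      constructor
      · rintro ⟨hq1, hq2⟩
        simp only [Finset.coe_image, Finset.coe_univ, Set.image_univ, Set.mem_range] at hq2
        obtain ⟨j, rfl⟩ := hq2
        have := (hmem j j.2).1 hq1
        simpa only [β, decide_eq_true_eq] using this
      · intro hq
        refine ⟨?_, hP' hq⟩
        have hq2 := hP' hq
        simp only [Finset.coe_image, Finset.coe_univ, Set.image_univ, Set.mem_range] at hq2
        obtain ⟨j, rfl⟩ := hq2
        exact (hmem j j.2).2 (by simpa only [β, decide_eq_true_eq] using hq)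
  · rintro ⟨-, P, hP, hsh⟩
    obtain ⟨S0, ⟨y0, rfl⟩, hS0⟩ := hsh (P : Set (Fin n → ℝ)) subset_rfl
    have hall : ∀ q ∈ P, (hfm (E, U, φ)).Holds (vasg n q y0) := by
      intro q hq
      have : q ∈ {x | (hfm (E, U, φ)).Holds (vasg n x y0)} ∩ (P : Set (Fin n → ℝ)) := by
        rw [hS0]
        exact hq
      exact this.1
    have hco : ∀ q ∈ P, ∀ e < E.length, pex q e = y0 (E.length + 1 + 3 * e) := fun q hq =>
      ((hfm_holds E U φ n hn q y0).1 (hall q hq)).2.1
    have hix : ∀ q ∈ P, ∃ j < U.length + 1, pex q E.length = j := by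
      intro q hq
      obtain ⟨j, hj, h1, -⟩ := ((hfm_holds E U φ n hn q y0).1 (hall q hq)).2.2.1
      exact ⟨j, hj, h1⟩
    have hext : ∀ q ∈ P, ∀ q' ∈ P, pex q E.length = pex q' E.length → q = q' := by
      intro q hq q' hq' h
      funext i
      have h1 : ∀ r : Fin n → ℝ, r i = pex r i := fun r => by simp [pex, i.2]
      rw [h1 q, h1 q']
      by_cases hi : (i : ℕ) < E.length
      · rw [hco q hq _ hi, hco q' hq' _ hi]
      · have : (i : ℕ) = E.length := by have := i.2; omega
        rw [this]
        exact h
    have hsur : ∀ j < U.length + 1, ∃ q ∈ P, pex q E.length = j := by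
      by_contra hcon
      push Not at hcon
      obtain ⟨j0, hj0, hno⟩ := hcon
      choose! f hf1 hf2 using hix
      have hcard : P.card ≤ ((Finset.range (U.length + 1)).erase j0).card := by
        refine Finset.card_le_card_of_injOn f ?_ ?_
        · intro q hq
          have hq' : q ∈ P := hq
          simp only [Finset.coe_erase, Set.mem_sdiff, Finset.mem_coe, Finset.mem_range,
            Set.mem_singleton_iff]
          refine ⟨hf1 q hq', fun h => hno q hq' ?_⟩
          rw [hf2 q hq', h]
        · intro q hq q' hq' h
          have h1 : q ∈ P := hq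
          have h2 : q' ∈ P := hq'
          exact hext q h1 q' h2 (by rw [hf2 q h1, hf2 q' h2, h])
      rw [Finset.card_erase_of_mem (Finset.mem_range.2 hj0), Finset.card_range] at hcard
      omega
    refine ⟨fun i => y0 (E.length + 1 + 3 * E.idxOf i), fun b => ?_⟩
    obtain ⟨S, ⟨y, rfl⟩, hS⟩ := hsh {q | q ∈ P ∧ (pex q E.length = (U.length : ℕ) ∨
      ∃ j < U.length, pex q E.length = j ∧ b (U.getD j 0) = true)} (fun q hq => hq.1)
    have hiff : ∀ q ∈ P, ((hfm (E, U, φ)).Holds (vasg n q y) ↔
        (pex q E.length = (U.length : ℕ) ∨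
          ∃ j < U.length, pex q E.length = j ∧ b (U.getD j 0) = true)) := by
      intro q hq
      have h1 : q ∈ {x | (hfm (E, U, φ)).Holds (vasg n x y)} ∩ (P : Set (Fin n → ℝ)) ↔ _ :=
        Set.ext_iff.1 hS q
      constructor
      · intro h
        exact (h1.1 ⟨h, hq⟩).2
      · intro h
        exact (h1.2 ⟨hq, h⟩).1
    obtain ⟨qt, hqt, hqt1⟩ := hsur U.length (by omega)
    have ht := (hfm_holds E U φ n hn qt y).1 ((hiff qt hqt).2 (Or.inl hqt1))
    obtain ⟨t1, t2, ⟨j', hj', t3, t3'⟩, t4⟩ := ht
    have hj'' : j' = U.length := by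
      rw [hqt1] at t3
      exact_mod_cast t3.symm
    subst hj''
    have t5 : φ.Holds (asn E U (pex qt) y) := by
      rcases t4 with h | h
      · rw [t3'] at h
        norm_num at h
      · exact h
    refine ⟨fun i => y (E.length + 1 + (3 * i + 2)), ?_⟩
    have hB : ∀ j < U.length, y (hb E j) = bre (b (U.getD j 0)) := by
      intro j hj
      obtain ⟨q, hq, hq1⟩ := hsur j (by omega)
      by_cases hbj : b (U.getD j 0) = true
      · have h1 := (hfm_holds E U φ n hn q y).1 ((hiff q hq).2 (Or.inr ⟨j, hj, hq1, hbj⟩))
        obtain ⟨j2, hj2, h2, h3⟩ := h1.2.2.1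
        have : j = j2 := by
          rw [hq1] at h2
          exact_mod_cast h2
        subst this
        rw [h3, hbj]
        simp [bre]
      · rcases t1 j (by omega) with h | h
        · rw [h, Bool.eq_false_iff.2 hbj]
          simp [bre]
        · exfalso
          have h1 : (hfm (E, U, φ)).Holds (vasg n q y) := by
            rw [hfm_holds E U φ n hn]
            refine ⟨t1, fun e he => ?_, ⟨j, by omega, hq1, h⟩, Or.inr ?_⟩
            · rw [← t2 e he, hco q hq e he, hco qt hqt e he]
            · have : asn E U (pex q) y = asn E U (pex qt) y := by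
                funext i
                unfold asn
                by_cases hE : i ∈ E
                · rw [if_pos hE, if_pos hE, hco q hq _ (List.idxOf_lt_length_of_mem hE),
                    hco qt hqt _ (List.idxOf_lt_length_of_mem hE)]
                · rw [if_neg hE, if_neg hE]
              rw [this]
              exact t5
          rcases (hiff q hq).1 h1 with h2 | ⟨j2, hj2, h2, h3⟩
          · rw [hq1] at h2
            have : j = U.length := by exact_mod_cast h2
            omega
          · rw [hq1] at h2
            have : j = j2 := by exact_mod_cast h2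
            subst this
            exact hbj h3
    have hfin : asn E U (pex qt) y = mix3 E U (fun i => y0 (E.length + 1 + 3 * E.idxOf i))
        (fun i => bre (b i)) (fun i => y (E.length + 1 + (3 * i + 2))) := by
      funext i
      unfold asn mix3
      by_cases hE : i ∈ E
      · rw [if_pos hE, if_pos hE, hco qt hqt _ (List.idxOf_lt_length_of_mem hE)]
      · rw [if_neg hE, if_neg hE]
        by_cases hU : i ∈ U
        · rw [if_pos hU, if_pos hU]
          have hl := List.idxOf_lt_length_of_mem hU
          have h1 := hB _ hl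
          rw [List.getD_eq_getElem _ _ hl, List.getElem_idxOf] at h1
          exact h1
        · rw [if_neg hU, if_neg hU]
    rw [← hfin]
    exact t5

theorem b_HC : S_HC := by
  rintro ⟨E, U, φ⟩
  exact hc_aux E U φ (List.replicate (E.length + 1) ()).length
    (List.replicate (U.length + 1) ()).length (by simp) (by simp)

end Pool.Agent.NPC.R537VC
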