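import Pool.Agent.R537.VC.Defs

/-!
# Correctness of the membership sentence
-/

set_option autoImplicit false

namespace Pool.Agent.NPC.R537VC

open Pool.Agent.NPC Pool.Agent.NPC.ER

theorem eval_sbT (g : ℕ → ℕ) (v : ℕ → ℝ) (t : Tm) : (sbT g t).eval v = t.eval fun i => v (g i) := by
  induction t with
  | var i => rfl
  | zero => rfl
  | one => rfl
  | add s t h1 h2 => simp [sbT, Tm.eval, h1, h2]
  | neg s h1 => simp [sbT, Tm.eval, h1]
  | mul s t h1 h2 => simp [sbT, Tm.eval, h1, h2]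

theorem holds_sbF (g : ℕ → ℕ) (v : ℕ → ℝ) (φ : Fm) :
    (sbF g φ).Holds v ↔ φ.Holds fun i => v (g i) := by
  induction φ with
  | eq s t => simp [sbF, Fm.Holds, eval_sbT]
  | lt s t => simp [sbF, Fm.Holds, eval_sbT]
  | le s t => simp [sbF, Fm.Holds, eval_sbT]
  | not φ h1 => simp [sbF, Fm.Holds, h1]
  | and φ ψ h1 h2 => simp [sbF, Fm.Holds, h1, h2]
  | or φ ψ h1 h2 => simp [sbF, Fm.Holds, h1, h2]

theorem holds_andL (v : ℕ → ℝ) : ∀ l : List Fm, (andL l).Holds v ↔ ∀ φ ∈ l, φ.Holds v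
  | [] => by simp [andL, Fm.Holds]
  | φ :: l => by simp [andL, Fm.Holds, holds_andL v l]

section

variable (n k : ℕ) (x z : ℕ → ℝ) (b : ℕ → Bool)

/-- the assignment of the sentence -/
def mv : ℕ → ℝ := mix3 ((List.range (k * n)).map (fun t => 3 * t))
  ((List.range k).map (fun j => 3 * j + 1)) x (fun i => bre (b i)) z

theorem mv_b {j : ℕ} (hj : j < k) : mv n k x z b (3 * j + 1) = bre (b (3 * j + 1)) := by
  unfold mv mix3
  rw [if_neg, if_pos]
  · exact List.mem_map.2 ⟨j, List.mem_range.2 hj, rfl⟩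
  · intro h
    obtain ⟨t, -, ht⟩ := List.mem_map.1 h
    omega

theorem mv_p {j : ℕ} (hj : j < k) (y : ℕ → ℝ) (hy : ∀ i, z (3 * i + 2) = y i)
    (p : Fin n → ℝ) (hp : ∀ i : Fin n, x (3 * (j * n + i)) = p i) :
    (fun i => mv n k x z b (mvar n j i)) = vasg n p y := by
  funext i
  unfold mvar vasg
  by_cases hi : i < n
  · rw [if_pos hi, dif_pos hi]
    unfold mv mix3
    rw [if_pos]
    · exact hp ⟨i, hi⟩
    · refine List.mem_map.2 ⟨j * n + i, List.mem_range.2 ?_, rfl⟩
      calc j * n + i < j * n + n := by omega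
        _ = (j + 1) * n := by ring
        _ ≤ k * n := Nat.mul_le_mul_right n hj
  · rw [if_neg hi, dif_neg hi]
    unfold mv mix3
    rw [if_neg, if_neg]
    · exact hy i
    · intro h
      obtain ⟨t, -, ht⟩ := List.mem_map.1 h
      omega
    · intro h
      obtain ⟨t, -, ht⟩ := List.mem_map.1 h
      omega

end

theorem bre_eq_one (b : Bool) : bre b = 1 ↔ b = true := by
  cases b <;> simp [bre]

theorem msen_holds (φ : Fm) (N K : List Unit) (x z : ℕ → ℝ) (b : ℕ → Bool) :
    (msen (φ, N, K)).2.2.Holds (mix3 (msen (φ, N, K)).1 (msen (φ, N, K)).2.1 x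
      (fun i => bre (b i)) z) ↔
    K ≠ [] ∧ ∀ j < K.length, (b (3 * j + 1) = true ↔
      φ.Holds fun i => mv N.length K.length x z b (mvar N.length j i)) := by
  change (Fm.and _ (andL _)).Holds (mv N.length K.length x z b) ↔ _
  simp only [Fm.Holds, holds_andL, List.mem_map, List.mem_range]
  refine and_congr ?_ ?_
  · by_cases h : K = []
    · simp [h, Fm.Holds]
    · simp [h, Fm.Holds]
  · constructor
    · intro h j hj
      have h1 := h _ ⟨j, hj, rfl⟩
      simp only [Fm.Holds, holds_sbF, is1, Tm.eval, mv_b _ _ _ _ _ hj, bre_eq_one] at h1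
      rcases h1 with ⟨h2, h3⟩ | ⟨h2, h3⟩
      · exact ⟨fun _ => h3, fun _ => h2⟩
      · exact ⟨fun h => absurd h h2, fun h => absurd h h3⟩
    · rintro h _ ⟨j, hj, rfl⟩
      simp only [Fm.Holds, holds_sbF, is1, Tm.eval, mv_b _ _ _ _ _ hj, bre_eq_one]
      have h1 := h j hj
      by_cases h2 : b (3 * j + 1) = true
      · exact Or.inl ⟨h2, h1.1 h2⟩
      · exact Or.inr ⟨h2, fun h3 => h2 (h1.2 h3)⟩

theorem mc_aux (φ : Fm) (n k : ℕ) :
    (1 ≤ k ∧ ∃ P : Finset (Fin n → ℝ), P.card = k ∧ Shatters (family φ n) (P : Set (Fin n → ℝ))) ↔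
    ∃ x : ℕ → ℝ, ∀ b : ℕ → Bool, ∃ z : ℕ → ℝ, 1 ≤ k ∧ ∀ j < k, (b (3 * j + 1) = true ↔
      φ.Holds fun i => mv n k x z b (mvar n j i)) := by
  classical
  constructor
  · rintro ⟨h1, P, hP, hsh⟩
    let e : Fin k ≃ P := (Finset.equivFinOfCardEq hP).symm
    refine ⟨fun t => if h : (t / 3) / n < k then (if h' : (t / 3) % n < n then
      (e ⟨(t / 3) / n, h⟩).1 ⟨(t / 3) % n, h'⟩ else 0) else 0, fun b => ?_⟩
    obtain ⟨S, ⟨y, rfl⟩, hS⟩ := hsh ((fun j : Fin k => (e j).1) '' {j | b (3 * j + 1) = true}) (by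
      rintro _ ⟨j, -, rfl⟩
      exact (e j).2)
    refine ⟨fun i => y ((i - 2) / 3), h1, fun j hj => ?_⟩
    rw [mv_p n k _ _ b hj y (fun i => by
      congr 1
      omega) (e ⟨j, hj⟩).1 (fun i => by
        have hi := i.2
        have hn0 : 0 < n := by omega
        have e1 : 3 * (j * n + (i : ℕ)) / 3 = j * n + i := by omega
        have e2 : (j * n + (i : ℕ)) / n = j := by
          rw [mul_comm, Nat.mul_add_div hn0, Nat.div_eq_of_lt hi, add_zero]
        have e3 : (j * n + (i : ℕ)) % n = i := by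
          rw [mul_comm, Nat.mul_add_mod, Nat.mod_eq_of_lt hi]
        have hA : (3 * (j * n + (i : ℕ)) / 3) / n < k := by rw [e1, e2]; exact hj
        have hB : (3 * (j * n + (i : ℕ)) / 3) % n < n := Nat.mod_lt _ hn0
        rw [dif_pos hA, dif_pos hB]
        have hC : (⟨(3 * (j * n + (i : ℕ)) / 3) / n, hA⟩ : Fin k) = ⟨j, hj⟩ :=
          Fin.ext (by
            change (3 * (j * n + (i : ℕ)) / 3) / n = j
            rw [e1, e2])
        have hD : (⟨(3 * (j * n + (i : ℕ)) / 3) % n, hB⟩ : Fin n) = i :=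
          Fin.ext (by
            change (3 * (j * n + (i : ℕ)) / 3) % n = i
            rw [e1, e3])
        rw [hC, hD])]
    have hmem : (e ⟨j, hj⟩).1 ∈ {x | φ.Holds (vasg n x y)} ∩ (P : Set (Fin n → ℝ)) ↔
        (e ⟨j, hj⟩).1 ∈ (fun j : Fin k => (e j).1) '' {j | b (3 * j + 1) = true} := by
      rw [hS]
    constructor
    · intro hb
      exact (hmem.2 ⟨⟨j, hj⟩, hb, rfl⟩).1
    · intro hφ
      obtain ⟨j', hj', he⟩ := hmem.1 ⟨hφ, (e ⟨j, hj⟩).2⟩
      have : j' = ⟨j, hj⟩ := e.injective (Subtype.ext he)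
      rw [this] at hj'
      exact hj'
  · rintro ⟨x, hx⟩
    have h1 : 1 ≤ k := by
      obtain ⟨z, hz, -⟩ := hx fun _ => true
      exact hz
    let Q : ℕ → Fin n → ℝ := fun j i => x (3 * (j * n + i))
    have key : ∀ b : ℕ → Bool, ∃ y : ℕ → ℝ, ∀ j < k, (b (3 * j + 1) = true ↔
        φ.Holds (vasg n (Q j) y)) := by
      intro b
      obtain ⟨z, -, hz⟩ := hx b
      refine ⟨fun i => z (3 * i + 2), fun j hj => ?_⟩
      have := hz j hj
      rwa [mv_p n k x z b hj (fun i => z (3 * i + 2)) (fun _ => rfl) (Q j) fun _ => rfl] at this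
    have hinj : Function.Injective fun j : Fin k => Q j := by
      intro j j' h
      by_contra hne
      obtain ⟨y, hy⟩ := key fun t => decide (t = 3 * (j : ℕ) + 1)
      have h2 := (hy j j.2).1 (by simp)
      have h3 : Q j = Q j' := h
      rw [h3] at h2
      have h4 := (hy j' j'.2).2 h2
      simp only [decide_eq_true_eq] at h4
      exact hne (Fin.ext (by omega))
    refine ⟨h1, Finset.univ.image fun j : Fin k => Q j, ?_, ?_⟩
    · rw [Finset.card_image_of_injective _ hinj]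
      simp
    · intro P' hP'
      obtain ⟨y, hy⟩ := key fun t => decide (Q ((t - 1) / 3) ∈ P')
      have hb : ∀ j : ℕ, (3 * j + 1 - 1) / 3 = j := fun j => by omega
      refine ⟨_, ⟨y, rfl⟩, ?_⟩
      ext q
      constructor
      · rintro ⟨hq1, hq2⟩
        simp only [Finset.coe_image, Finset.coe_univ, Set.image_univ, Set.mem_range] at hq2
        obtain ⟨j, rfl⟩ := hq2
        have := (hy j j.2).2 hq1
        simpa only [decide_eq_true_eq, hb] using this
      · intro hq
        refine ⟨?_, hP' hq⟩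
        have hq2 := hP' hq
        simp only [Finset.coe_image, Finset.coe_univ, Set.image_univ, Set.mem_range] at hq2
        obtain ⟨j, rfl⟩ := hq2
        exact (hy j j.2).1 (by simpa only [decide_eq_true_eq, hb] using hq)

theorem b_MC : S_MC := by
  rintro ⟨φ, N, K⟩
  have hK : K ≠ [] ↔ 1 ≤ K.length := by
    rw [Nat.one_le_iff_ne_zero, ne_eq, ne_eq, List.length_eq_zero_iff]
  unfold EBE
  simp only [msen_holds, hK]
  exact mc_aux φ N.length K.length

end Pool.Agent.NPC.R537VC
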