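import Pool.Agent.R537.VC.Defs
import Pool.Agent.H670R2.ERMem
import Pool.Agent.H612.CollectPoly
import Pool.Agent.R537.HD.Mem

/-!
# The reductions are computable in polynomial time
-/

set_option autoImplicit false

namespace Pool.Agent.NPC.R537VC

open Pool.Agent.NPC Pool.Agent.NPC.ER
open Pool.Agent.NPC.H612 (poly_idxOf)

/-- Substitution in a symbol. -/
def tokS (g : ℕ → ℕ) (t : Tok) : Tok := if t.code.1 = 0 then Tok.var (g t.code.2) else t

theorem toks_sbT (g : ℕ → ℕ) (t : Tm) : (sbT g t).toks = t.toks.map (tokS g) := by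
  induction t with
  | var i => rfl
  | zero => rfl
  | one => rfl
  | add s t h1 h2 => simp [sbT, Tm.toks, h1, h2, tokS, Tok.code]
  | neg s h1 => simp [sbT, Tm.toks, h1, tokS, Tok.code]
  | mul s t h1 h2 => simp [sbT, Tm.toks, h1, h2, tokS, Tok.code]

theorem toks_sbF (g : ℕ → ℕ) (φ : Fm) : (sbF g φ).toks = φ.toks.map (tokS g) := by
  induction φ with
  | eq s t => simp [sbF, Fm.toks, toks_sbT, tokS, Tok.code]
  | lt s t => simp [sbF, Fm.toks, toks_sbT, tokS, Tok.code]
  | le s t => simp [sbF, Fm.toks, toks_sbT, tokS, Tok.code]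
  | not φ h1 => simp [sbF, Fm.toks, h1, tokS, Tok.code]
  | and φ ψ h1 h2 => simp [sbF, Fm.toks, h1, h2, tokS, Tok.code]
  | or φ ψ h1 h2 => simp [sbF, Fm.toks, h1, h2, tokS, Tok.code]

theorem toks_andL (l : List Fm) : (andL l).toks =
    l.flatMap Fm.toks ++ (Fm.le Tm.zero Tm.zero).toks ++ List.replicate l.length Tok.and := by
  induction l with
  | nil => simp [andL]
  | cons a l ih =>
      change a.toks ++ (andL l).toks ++ [Tok.and] = _
      rw [ih]
      simp [List.replicate_succ']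

theorem toks_orL (l : List Fm) : (orL l).toks =
    l.flatMap Fm.toks ++ (Fm.lt Tm.zero Tm.zero).toks ++ List.replicate l.length Tok.or := by
  induction l with
  | nil => simp [orL]
  | cons a l ih =>
      change a.toks ++ (orL l).toks ++ [Tok.or] = _
      rw [ih]
      simp [List.replicate_succ']

section

variable {α : Type} [TEnc α]

theorem p_fm {t : α → Fm} (h : Poly (fun a => (t a).toks)) : Poly t := h

theorem p_toks {t : α → Fm} (h : Poly t) : Poly (fun a => (t a).toks) := h

theorem p_sbF {g : α → ℕ → ℕ} {φ : α → Fm} (hg : Poly (fun p : α × ℕ => g p.1 p.2))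
    (hφ : Poly φ) : Poly (fun a => sbF (g a) (φ a)) := by
  refine p_fm (Poly.congr (f := fun a => (φ a).toks.map (tokS (g a))) ?_
    fun a => (toks_sbF _ _).symm)
  have h0 : Poly (fun p : α × Tok => p.2.code) := poly_tok_code (Poly.snd Poly.id)
  exact Poly.map (F := fun a t => tokS (g a) t) (p_toks hφ)
    (Poly.ite (Poly.decide_eq (Poly.fst h0) (Poly.const 0))
      (H670R2.poly_tok (hg.comp (Poly.pair (Poly.fst Poly.id) (Poly.snd h0))))
      (Poly.snd Poly.id))

theorem p_andL {l : α → List Fm} (hl : Poly l) : Poly (fun a => andL (l a)) := by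
  refine p_fm (Poly.congr (f := fun a => (l a).flatMap Fm.toks ++
    (Fm.le Tm.zero Tm.zero).toks ++ List.replicate (l a).length Tok.and) ?_
    fun a => (toks_andL _).symm)
  exact Poly.append (Poly.append (Poly.flatMap (F := fun _ φ => Fm.toks φ) hl
    (p_toks (Poly.snd Poly.id))) (Poly.const _)) (H670R2.poly_replicate hl _)

theorem p_orL {l : α → List Fm} (hl : Poly l) : Poly (fun a => orL (l a)) := by
  refine p_fm (Poly.congr (f := fun a => (l a).flatMap Fm.toks ++
    (Fm.lt Tm.zero Tm.zero).toks ++ List.replicate (l a).length Tok.or) ?_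
    fun a => (toks_orL _).symm)
  exact Poly.append (Poly.append (Poly.flatMap (F := fun _ φ => Fm.toks φ) hl
    (p_toks (Poly.snd Poly.id))) (Poly.const _)) (H670R2.poly_replicate hl _)

theorem p_is1 {i : α → ℕ} (hi : Poly i) : Poly (fun a => is1 (i a)) := by
  refine p_fm ?_
  change Poly (fun a => [Tok.var (i a), Tok.one, Tok.eq])
  exact Poly.cons (H670R2.poly_tok hi) (Poly.const _)

theorem p_is0 {i : α → ℕ} (hi : Poly i) : Poly (fun a => is0 (i a)) := by
  refine p_fm ?_
  change Poly (fun a => [Tok.var (i a), Tok.zero, Tok.eq])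
  exact Poly.cons (H670R2.poly_tok hi) (Poly.const _)

theorem p_not {s : α → Fm} (hs : Poly s) : Poly (fun a => Fm.not (s a)) :=
  p_fm (Poly.append (p_toks hs) (Poly.const [Tok.not]))

theorem p_and {s t : α → Fm} (hs : Poly s) (ht : Poly t) :
    Poly (fun a => Fm.and (s a) (t a)) :=
  p_fm (Poly.append (Poly.append (p_toks hs) (p_toks ht)) (Poly.const [Tok.and]))

theorem p_or {s t : α → Fm} (hs : Poly s) (ht : Poly t) :
    Poly (fun a => Fm.or (s a) (t a)) :=
  p_fm (Poly.append (Poly.append (p_toks hs) (p_toks ht)) (Poly.const [Tok.or]))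

theorem p_eqv {i j : α → ℕ} (hi : Poly i) (hj : Poly j) :
    Poly (fun a => Fm.eq (Tm.var (i a)) (Tm.var (j a))) := by
  refine p_fm ?_
  change Poly (fun a => [Tok.var (i a), Tok.var (j a), Tok.eq])
  exact Poly.cons (H670R2.poly_tok hi) (Poly.cons (H670R2.poly_tok hj) (Poly.const _))

theorem p_eqn {i j : α → ℕ} (hi : Poly i) (hj : Poly j) :
    Poly (fun a => Fm.eq (Tm.var (i a)) (natTm (j a))) := by
  refine p_fm ?_
  change Poly (fun a => [Tok.var (i a)] ++ (natTm (j a)).toks ++ [Tok.eq])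
  have h : Poly (fun a => (natTm (j a)).toks) := poly_natTm hj
  exact Poly.append (Poly.append (Poly.cons (H670R2.poly_tok hi) (Poly.const _)) h)
    (Poly.const _)

end

theorem b_RP : S_RP := by
  have hE : Poly (fun p : Sen => p.1) := Poly.fst Poly.id
  have hU : Poly (fun p : Sen => p.2.1) := Poly.fst (Poly.snd Poly.id)
  have hF : Poly (fun p : Sen => p.2.2) := Poly.snd (Poly.snd Poly.id)
  refine Poly.pair hE (Poly.pair hU (p_or (p_orL ?_) hF))
  refine Poly.map (F := fun _ u => Fm.not (Fm.or (is0 u) (is1 u))) ?_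
    (p_not (p_or (p_is0 (Poly.snd Poly.id)) (p_is1 (Poly.snd Poly.id))))
  refine Poly.filter (p := fun (p : Sen) u => decide (u ∉ p.1)) hU ?_
  have h1 : Poly (fun q : Sen × ℕ => decide (q.2 ∈ q.1.1)) :=
    Poly.decide_mem (Poly.snd Poly.id) (hE.comp (Poly.fst Poly.id))
  have h2 : Poly (fun q : Sen × ℕ => if q.2 ∈ q.1.1 then false else true) :=
    Poly.ite h1 (Poly.const _) (Poly.const _)
  refine h2.congr fun q => ?_
  by_cases h : q.2 ∈ q.1.1 <;> simp [h]

theorem b_MP : S_MP := by
  have hF : Poly (fun p : VInst => p.1) := Poly.fst Poly.id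
  have hn : UPoly (fun p : VInst => p.2.1.length) := UPoly.length (Poly.fst (Poly.snd Poly.id))
  have hk : UPoly (fun p : VInst => p.2.2.length) := UPoly.length (Poly.snd (Poly.snd Poly.id))
  have h3 : ∀ c : ℕ, Poly (fun q : VInst × ℕ => 3 * q.2 + c) := fun c =>
    Poly.add (Poly.mul (Poly.const 3) (Poly.snd Poly.id)) (Poly.const c)
  have hs : Poly (fun q : VInst × ℕ => sbF (mvar q.1.2.1.length q.2) q.1.1) := by
    refine p_sbF (g := fun q : VInst × ℕ => mvar q.1.2.1.length q.2) ?_
      (hF.comp (Poly.fst Poly.id))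
    have hn' : Poly (fun q : (VInst × ℕ) × ℕ => q.1.1.2.1.length) :=
      hn.toPoly.comp (Poly.fst (Poly.fst Poly.id))
    have hi : Poly (fun q : (VInst × ℕ) × ℕ => q.2) := Poly.snd Poly.id
    have hj : Poly (fun q : (VInst × ℕ) × ℕ => q.1.2) := Poly.snd (Poly.fst Poly.id)
    exact Poly.ite (Poly.decide_lt hi hn')
      (Poly.mul (Poly.const 3) (Poly.add (Poly.mul hj hn') hi))
      (Poly.add (Poly.mul (Poly.const 3) hi) (Poly.const 2))
  refine Poly.pair ?_ (Poly.pair ?_ (p_and ?_ (p_andL ?_)))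
  · exact Poly.map (F := fun _ t => 3 * t) (UPoly.mul hk hn).range
      (Poly.mul (Poly.const 3) (Poly.snd Poly.id))
  · exact Poly.map (F := fun _ j => 3 * j + 1) hk.range (h3 1)
  · have h1 : Poly (fun p : VInst => if p.2.2.length = 0 then Fm.lt Tm.zero Tm.zero
        else Fm.le Tm.zero Tm.zero) :=
      Poly.ite (Poly.decide_eq hk.toPoly (Poly.const 0)) (Poly.const _) (Poly.const _)
    refine h1.congr fun p => ?_
    by_cases h : p.2.2 = []
    · simp [h]
    · have : p.2.2.length ≠ 0 := fun h' => h (List.length_eq_zero_iff.1 h')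
      simp [h]
  · exact Poly.map (F := fun (I : VInst) j =>
      Fm.or (Fm.and (is1 (3 * j + 1)) (sbF (mvar I.2.1.length j) I.1))
          (Fm.and (Fm.not (is1 (3 * j + 1))) (Fm.not (sbF (mvar I.2.1.length j) I.1)))) hk.range
      (p_or (p_and (p_is1 (h3 1)) hs) (p_and (p_not (p_is1 (h3 1))) (p_not hs)))

theorem b_HP : S_HP := by
  have hE : Poly (fun p : Sen => p.1) := Poly.fst Poly.id
  have hU : Poly (fun p : Sen => p.2.1) := Poly.fst (Poly.snd Poly.id)
  have hF : Poly (fun p : Sen => p.2.2) := Poly.snd (Poly.snd Poly.id)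
  have hEl : UPoly (fun p : Sen => p.1.length) := UPoly.length hE
  have hUl : UPoly (fun p : Sen => p.2.1.length) := UPoly.length hU
  have hEl1 : UPoly (fun p : Sen => p.1.length + 1) := UPoly.add hEl (UPoly.const 1)
  have hUl1 : UPoly (fun p : Sen => p.2.1.length + 1) := UPoly.add hUl (UPoly.const 1)
  have hhb : Poly (fun q : Sen × ℕ => hb q.1.1 q.2) :=
    Poly.add (hEl1.toPoly.comp (Poly.fst Poly.id))
      (Poly.add (Poly.mul (Poly.const 3) (Poly.snd Poly.id)) (Poly.const 1))
  have hv : Poly (fun q : Sen × ℕ => hvar q.1.1 q.1.2.1 q.2) := by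
    have hE' : Poly (fun q : Sen × ℕ => q.1.1) := hE.comp (Poly.fst Poly.id)
    have hU' : Poly (fun q : Sen × ℕ => q.1.2.1) := hU.comp (Poly.fst Poly.id)
    have hi : Poly (fun q : Sen × ℕ => q.2) := Poly.snd Poly.id
    have hl : Poly (fun q : Sen × ℕ => q.1.1.length + 1) := hEl1.toPoly.comp (Poly.fst Poly.id)
    exact Poly.ite (Poly.decide_mem hi hE') (poly_idxOf hE' hi)
      (Poly.ite (Poly.decide_mem hi hU')
        (Poly.add hl (Poly.add (Poly.mul (Poly.const 3) (poly_idxOf hU' hi)) (Poly.const 1)))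
        (Poly.add hl (Poly.add (Poly.mul (Poly.const 3) hi) (Poly.const 2))))
  refine Poly.pair ?_ (Poly.pair hEl1 hUl1)
  refine p_and (p_andL ?_) (p_and (p_andL ?_) (p_and (p_orL ?_) (p_or (p_is0 ?_) ?_)))
  · exact Poly.map (F := fun (p : Sen) j => Fm.or (is0 (hb p.1 j)) (is1 (hb p.1 j))) hUl1.range
      (p_or (p_is0 hhb) (p_is1 hhb))
  · exact Poly.map (F := fun (p : Sen) e => Fm.eq (Tm.var e) (Tm.var (p.1.length + 1 + 3 * e)))
      hEl.range (p_eqv (Poly.snd Poly.id) (Poly.add (hEl1.toPoly.comp (Poly.fst Poly.id))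
        (Poly.mul (Poly.const 3) (Poly.snd Poly.id))))
  · exact Poly.map (F := fun (p : Sen) j => Fm.and (Fm.eq (Tm.var p.1.length) (natTm j))
      (is1 (hb p.1 j))) hUl1.range
      (p_and (p_eqn (hEl.toPoly.comp (Poly.fst Poly.id)) (Poly.snd Poly.id)) (p_is1 hhb))
  · exact Poly.add hEl1.toPoly (Poly.add (Poly.mul (Poly.const 3) hUl.toPoly) (Poly.const 1))
  · exact p_sbF (g := fun p : Sen => hvar p.1 p.2.1) hv hF

end Pool.Agent.NPC.R537VC
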